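import Pool.Agent.Q157.OM.Stm

/-!
# Jobs OM-num, OM-avoid (helper156): counting matchings
-/

set_option autoImplicit false

namespace Pool.Agent.Q156.OM

open Finset Pool.Agent.Q157.OM

/-! ### Removing a part of a matching -/

lemma sub_of_matching {r : ℕ} {W : Finset ℕ} {M : Finset (Finset ℕ)} (h : IsMatching r W M)
    {e : Finset ℕ} (he : e ∈ M) : e ⊆ W := by
  rw [← h.2.2]
  intro x hx
  exact mem_biUnion.2 ⟨e, he, hx⟩

lemma mem_MS {r : ℕ} {W : Finset ℕ} {M : Finset (Finset ℕ)} : M ∈ MS r W ↔ IsMatching r W M := by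
  classical
  unfold MS
  rw [mem_filter, mem_powerset]
  constructor
  · exact fun h => h.2
  · intro h
    exact ⟨fun e he => mem_powerset.2 (sub_of_matching h he), h⟩

lemma matching_sdiff {r : ℕ} {W : Finset ℕ} {M N : Finset (Finset ℕ)} (h : IsMatching r W M)
    (hN : N ⊆ M) : IsMatching r (W \ N.biUnion id) (M \ N) := by
  obtain ⟨h1, h2, h3⟩ := h
  refine ⟨fun e he => h1 e (mem_sdiff.1 he).1,
    fun e he f hf => h2 e (mem_sdiff.1 he).1 f (mem_sdiff.1 hf).1, ?_⟩
  ext x
  simp only [mem_biUnion, mem_sdiff, id]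
  constructor
  · rintro ⟨e, ⟨he1, he2⟩, hx⟩
    refine ⟨by rw [← h3]; exact mem_biUnion.2 ⟨e, he1, hx⟩, ?_⟩
    rintro ⟨f, hf, hxf⟩
    have hne : e ≠ f := by rintro rfl; exact he2 hf
    exact (disjoint_left.1 (h2 e he1 f (hN hf) hne)) hx hxf
  · rintro ⟨hx1, hx2⟩
    rw [← h3, mem_biUnion] at hx1
    obtain ⟨e, he, hxe⟩ := hx1
    exact ⟨e, ⟨he, fun hc => hx2 ⟨e, hc, hxe⟩⟩, hxe⟩

lemma disj_of_matching {r : ℕ} (hr : 1 ≤ r) {W : Finset ℕ} {M' N : Finset (Finset ℕ)}
    (h' : IsMatching r (W \ N.biUnion id) M') : Disjoint M' N := by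
  rw [disjoint_left]
  intro e he heN
  have h1 := sub_of_matching h' he
  have h2 : e.Nonempty := by
    rw [← card_pos, h'.1 e he]; omega
  obtain ⟨x, hx⟩ := h2
  have h3 := mem_sdiff.1 (h1 hx)
  exact h3.2 (mem_biUnion.2 ⟨e, heN, hx⟩)

lemma matching_union {r : ℕ} {W : Finset ℕ} {M' N : Finset (Finset ℕ)}
    (hN : IsMatching r (N.biUnion id) N) (hNW : N.biUnion id ⊆ W)
    (h' : IsMatching r (W \ N.biUnion id) M') : IsMatching r W (M' ∪ N) := by
  have key : ∀ e ∈ M', ∀ f ∈ N, Disjoint e f := by
    intro e he f hf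
    have h1 := sub_of_matching h' he
    have h2 := sub_of_matching hN hf
    exact Disjoint.mono h1 h2 sdiff_disjoint
  refine ⟨?_, ?_, ?_⟩
  · intro e he
    rcases mem_union.1 he with he | he
    · exact h'.1 e he
    · exact hN.1 e he
  · intro e he f hf hne
    rcases mem_union.1 he with he | he <;> rcases mem_union.1 hf with hf | hf
    · exact h'.2.1 e he f hf hne
    · exact key e he f hf
    · exact (key f hf e he).symm
    · exact hN.2.1 e he f hf hne
  · rw [union_biUnion, h'.2.2, sdiff_union_of_subset hNW]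

/-- the matchings containing `N` which satisfy `P` and those of the rest which satisfy `Q` -/
lemma card_contain {r : ℕ} (hr : 1 ≤ r) {W : Finset ℕ} {N : Finset (Finset ℕ)}
    (hN : IsMatching r (N.biUnion id) N) (hNW : N.biUnion id ⊆ W)
    (P Q : Finset (Finset ℕ) → Prop) [DecidablePred P] [DecidablePred Q]
    (hPQ : ∀ M', Disjoint M' N → (Q M' ↔ P (M' ∪ N))) :
    ((MS r W).filter (fun M => N ⊆ M ∧ P M)).card =
      ((MS r (W \ N.biUnion id)).filter Q).card := by
  classical
  refine card_nbij' (fun M => M \ N) (fun M' => M' ∪ N) ?_ ?_ ?_ ?_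
  · intro M hM
    simp only [coe_filter, Set.mem_ofPred_eq, mem_MS] at hM ⊢
    refine ⟨matching_sdiff hM.1 hM.2.1, ?_⟩
    rw [hPQ _ sdiff_disjoint, sdiff_union_of_subset hM.2.1]
    exact hM.2.2
  · intro M' hM'
    simp only [coe_filter, Set.mem_ofPred_eq, mem_MS] at hM' ⊢
    exact ⟨matching_union hN hNW hM'.1, subset_union_right,
      (hPQ _ (disj_of_matching hr hM'.1)).1 hM'.2⟩
  · intro M hM
    simp only [coe_filter, Set.mem_ofPred_eq, mem_MS] at hM
    exact sdiff_union_of_subset hM.2.1
  · intro M' hM'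
    simp only [coe_filter, Set.mem_ofPred_eq, mem_MS] at hM'
    have := disj_of_matching hr hM'.1
    change (M' ∪ N) \ N = M'
    rw [union_sdiff_right]
    exact sdiff_eq_self_of_disjoint this

lemma single_matching {r : ℕ} {e : Finset ℕ} (he : e.card = r) :
    IsMatching r (({e} : Finset (Finset ℕ)).biUnion id) {e} := by
  refine ⟨?_, ?_, rfl⟩
  · intro f hf
    rw [mem_singleton] at hf
    rw [hf, he]
  · intro f hf g hg hne
    rw [mem_singleton] at hf hg
    exact absurd (hf.trans hg.symm) hne

theorem rec : S_rec := by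
  classical
  intro r hr
  refine ⟨fun W M => mem_MS, ?_⟩
  intro F W v hv
  have hdec : ((MS r W).filter (fun M => ∀ e ∈ M, e ∉ F)) =
      ((W.powersetCard r).filter (fun e => v ∈ e ∧ e ∉ F)).biUnion
        (fun e => (MS r W).filter (fun M => {e} ⊆ M ∧ ∀ f ∈ M, f ∉ F)) := by
    ext M
    simp only [mem_filter, mem_biUnion, mem_MS, mem_powersetCard, singleton_subset_iff]
    constructor
    · rintro ⟨h1, h2⟩
      have : v ∈ M.biUnion id := by rw [h1.2.2]; exact hv
      obtain ⟨e, he, hve⟩ := mem_biUnion.1 this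
      exact ⟨e, ⟨⟨sub_of_matching h1 he, h1.1 e he⟩, hve, h2 e he⟩, h1, he, h2⟩
    · rintro ⟨e, -, h1, -, h2⟩
      exact ⟨h1, h2⟩
  unfold av
  rw [hdec, card_biUnion]
  · apply sum_congr rfl
    intro e he
    rw [mem_filter, mem_powersetCard] at he
    have := card_contain hr (W := W) (single_matching he.1.2) (by simpa using he.1.1)
      (fun M => ∀ f ∈ M, f ∉ F) (fun M => ∀ f ∈ M, f ∉ F) (by
        intro M' _
        constructor
        · intro h f hf
          rcases mem_union.1 hf with hf | hf
          · exact h f hf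
          · rw [mem_singleton] at hf
            rw [hf]
            exact he.2.2
        · intro h f hf
          exact h f (mem_union_left _ hf))
    rw [this, singleton_biUnion]
    rfl
  · intro e he f hf hne
    rw [Function.onFun, disjoint_left]
    intro M hM hM'
    simp only [mem_filter, mem_MS, singleton_subset_iff] at hM hM'
    simp only [coe_filter, Set.mem_ofPred_eq] at he hf
    exact disjoint_left.1 (hM.1.2.1 e hM.2.1 f hM'.2.1 hne) he.2.1 hf.2.1

/-- the number of the sets of size `r` in `W` which contain `v` -/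
lemma card_star {r : ℕ} (hr : 1 ≤ r) {W : Finset ℕ} {v : ℕ} (hv : v ∈ W) :
    ((W.powersetCard r).filter (fun e => v ∈ e)).card = (W.card - 1).choose (r - 1) := by
  classical
  rw [← card_erase_of_mem hv, ← card_powersetCard]
  refine card_nbij' (fun e => e.erase v) (fun e => insert v e) ?_ ?_ ?_ ?_
  · intro e he
    simp only [coe_filter, Set.mem_ofPred_eq, mem_powersetCard] at he
    simp only [mem_coe, mem_powersetCard]
    exact ⟨erase_subset_erase _ he.1.1, by rw [card_erase_of_mem he.2, he.1.2]⟩
  · intro e he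
    simp only [mem_coe, mem_powersetCard] at he
    simp only [coe_filter, Set.mem_ofPred_eq, mem_powersetCard]
    refine ⟨⟨?_, ?_⟩, mem_insert_self _ _⟩
    · intro x hx
      rcases mem_insert.1 hx with rfl | hx
      · exact hv
      · exact mem_of_mem_erase (he.1 hx)
    · rw [card_insert_of_notMem (fun h => notMem_erase v W (he.1 h)), he.2]
      omega
  · intro e he
    simp only [coe_filter, Set.mem_ofPred_eq, mem_powersetCard] at he
    exact insert_erase he.2
  · intro e he
    simp only [mem_coe, mem_powersetCard] at he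
    exact erase_insert (fun h => notMem_erase v W (he.1 h))

lemma av_empty {r : ℕ} {F : Set (Finset ℕ)} (hF : ∀ e, e ∉ F) (W : Finset ℕ) :
    av r F W = (MS r W).card := by
  classical
  unfold av
  congr 1
  ext M
  rw [mem_filter]
  exact ⟨fun h => h.1, fun h => ⟨h, fun e _ => hF e⟩⟩

lemma card_MS (h : S_rec) {r : ℕ} (hr : 1 ≤ r) (m : ℕ) : ∀ (W : Finset ℕ), W.card = r * m →
    (MS r W).card = Nat.uniformBell m r := by
  classical
  induction m with
  | zero =>
    intro W hW
    rw [mul_zero, card_eq_zero] at hW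
    subst hW
    rw [Nat.uniformBell_zero_left, card_eq_one]
    refine ⟨∅, ?_⟩
    ext M
    rw [mem_MS, mem_singleton]
    constructor
    · intro hM
      rw [eq_empty_iff_forall_notMem]
      intro e he
      have h1 := sub_of_matching hM he
      have h2 := hM.1 e he
      rw [subset_empty] at h1
      rw [h1, card_empty] at h2
      omega
    · rintro rfl
      exact ⟨by simp, by simp, by simp⟩
  | succ m ih =>
    intro W hW
    have hpos : 0 < W.card := by rw [hW]; positivity
    obtain ⟨v, hv⟩ := card_pos.1 hpos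
    obtain ⟨F, hF⟩ : ∃ F : Set (Finset ℕ), ∀ e, e ∉ F := ⟨∅, fun e he => he⟩
    rw [← av_empty hF, (h r hr).2 F W v hv]
    refine (sum_congr (g := fun _ => Nat.uniformBell m r) rfl (fun e he => ?_)).trans ?_
    · rw [mem_filter, mem_powersetCard] at he
      rw [av_empty hF, ih]
      rw [card_sdiff_of_subset he.1.1, hW, he.1.2, mul_add, mul_one, Nat.add_sub_cancel]
    rw [sum_const, smul_eq_mul, Nat.uniformBell_succ_left]
    congr 1
    have e3 := card_star hr hv
    rw [hW] at e3
    rw [show m * r + r - 1 = r * (m + 1) - 1 by rw [mul_add, mul_comm r m, mul_one], ← e3]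
    congr 1
    ext e
    rw [mem_filter, mem_filter]
    exact ⟨fun h => ⟨h.1, h.2.1⟩, fun h => ⟨h.1, h.2, hF e⟩⟩

lemma matching_card {r : ℕ} {W : Finset ℕ} {M : Finset (Finset ℕ)} (h : IsMatching r W M) :
    W.card = r * M.card := by
  rw [← h.2.2, card_biUnion (t := id) (fun e he f hf hne => h.2.1 e he f hf hne)]
  refine (sum_congr (g := fun _ => r) rfl (fun e he => h.1 e he)).trans ?_
  rw [sum_const, smul_eq_mul, mul_comm]

theorem num (h : S_rec) : S_num := by
  classical
  intro r hr
  refine ⟨fun m W hW => card_MS h hr m W hW, ?_, ?_, ?_⟩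
  · intro m
    induction m with
    | zero => rw [Nat.uniformBell_zero_left]; exact one_pos
    | succ m ih =>
      rw [Nat.uniformBell_succ_left]
      exact Nat.mul_pos (Nat.choose_pos (by omega)) ih
  · intro m W M hW hM
    have := matching_card hM
    rw [hW] at this
    exact (Nat.eq_of_mul_eq_mul_left (by omega) this).symm
  · intro m k W N hW hk hN hNW
    have h1 := card_contain hr hN hNW (fun _ => True) (fun _ => True) (fun _ _ => Iff.rfl)
    simp only [and_true, filter_true] at h1
    rw [h1]
    apply card_MS h hr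
    have h2 := matching_card hN
    rw [card_sdiff_of_subset hNW, hW, h2, hk, Nat.mul_sub]

theorem avoid (h1 : S_rec) (h2 : S_num) : S_avoid := by
  classical
  intro r p hr hp0 hp1 T
  induction T with
  | zero =>
    intro m F W hW _
    rw [pow_zero, one_mul, ← (h2 r hr).1 m W hW]
    unfold av
    exact_mod_cast card_filter_le _ _
  | succ T ih =>
    intro m F W hW hU
    obtain ⟨v, hv, hvF⟩ := hU W (Subset.refl _) (by
      have : 0 < r * (T + 1) := by positivity
      omega)
    obtain ⟨m', rfl⟩ : ∃ m', m = m' + 1 := by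
      refine ⟨m - 1, ?_⟩
      rcases Nat.eq_zero_or_pos m with h0 | h0
      · subst h0
        rw [mul_zero, card_eq_zero] at hW
        rw [hW] at hv
        exact absurd hv (notMem_empty _)
      · omega
    rw [(h1 r hr).2 F W v hv]
    have hstep : ∀ e ∈ (W.powersetCard r).filter (fun e => v ∈ e ∧ e ∉ F),
        (av r F (W \ e) : ℝ) ≤ (1 - p) ^ T * (Nat.uniformBell m' r : ℝ) := by
      intro e he
      rw [mem_filter, mem_powersetCard] at he
      have hc : (W \ e).card = r * m' := by
        rw [card_sdiff_of_subset he.1.1, hW, he.1.2, mul_add, mul_one, Nat.add_sub_cancel]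
      refine ih m' F (W \ e) hc ?_
      intro U hUW hcard
      refine hU U (hUW.trans sdiff_subset) ?_
      rw [hc] at hcard
      rw [hW, mul_add, mul_add, mul_one]
      omega
    push_cast
    refine (sum_le_sum hstep).trans ?_
    rw [sum_const, nsmul_eq_mul, Nat.uniformBell_succ_left]
    have hN : (((W.powersetCard r).filter (fun e => v ∈ e ∧ e ∉ F)).card : ℝ) +
        (((W.powersetCard r).filter (fun e => v ∈ e ∧ e ∈ F)).card : ℝ) =
        ((W.card - 1).choose (r - 1) : ℝ) := by
      rw [← card_star hr hv, ← card_filter_add_card_filter_not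
        (s := (W.powersetCard r).filter (fun e => v ∈ e)) (fun e => e ∉ F), filter_filter,
        filter_filter]
      have e4 : (W.powersetCard r).filter (fun e => v ∈ e ∧ e ∈ F) =
          (W.powersetCard r).filter (fun e => v ∈ e ∧ ¬ e ∉ F) := by
        apply filter_congr
        intro e _
        rw [not_not]
      rw [e4]
      push_cast
      rfl
    have hc1 : (m' * r + r - 1).choose (r - 1) = (W.card - 1).choose (r - 1) := by
      rw [hW, mul_add, mul_comm m' r, mul_one]
    rw [hc1]
    have hle : (((W.powersetCard r).filter (fun e => v ∈ e ∧ e ∉ F)).card : ℝ) ≤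
        (1 - p) * ((W.card - 1).choose (r - 1) : ℝ) := by
      linarith
    have hpos : 0 ≤ (1 - p) ^ T * (Nat.uniformBell m' r : ℝ) := by
      have : 0 ≤ 1 - p := by linarith
      positivity
    calc (((W.powersetCard r).filter (fun e => v ∈ e ∧ e ∉ F)).card : ℝ) *
          ((1 - p) ^ T * (Nat.uniformBell m' r : ℝ)) ≤
        ((1 - p) * ((W.card - 1).choose (r - 1) : ℝ)) *
          ((1 - p) ^ T * (Nat.uniformBell m' r : ℝ)) := mul_le_mul_of_nonneg_right hle hpos
      _ = _ := by push_cast; ring

end Pool.Agent.Q156.OM
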