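import Pool.Agent.Q156.OM.Num

/-!
# Job OM-place (helper156): the number of the cliques inside `{1, …, n}`
-/

set_option autoImplicit false

namespace Pool.Agent.Q156.OM

open Finset Pool.Agent.Q157.OM

/-- the rank in `U` -/
def rk (U : Finset ℕ) (x : ℕ) : ℕ := (U.filter (fun y => y ≤ x)).card

lemma rk_lt {U : Finset ℕ} {x y : ℕ} (hy : y ∈ U) (hxy : x < y) : rk U x < rk U y := by
  apply card_lt_card
  rw [ssubset_iff_of_subset]
  · exact ⟨y, by simp [hy], by simp [hxy]⟩
  · intro z hz
    rw [mem_filter] at hz ⊢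
    exact ⟨hz.1, by omega⟩

lemma rk_injOn (U : Finset ℕ) : Set.InjOn (rk U) (U : Set ℕ) := by
  intro x hx y hy h
  rcases lt_trichotomy x y with h1 | h1 | h1
  · exact absurd h (rk_lt (mem_coe.1 hy) h1).ne
  · exact h1
  · exact absurd h (rk_lt (mem_coe.1 hx) h1).ne'

lemma rk_image (U : Finset ℕ) : U.image (rk U) = Icc 1 U.card := by
  apply eq_of_subset_of_card_le
  · intro z hz
    obtain ⟨x, hx, rfl⟩ := mem_image.1 hz
    rw [mem_Icc]
    refine ⟨?_, card_filter_le _ _⟩
    unfold rk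
    rw [Nat.one_le_iff_ne_zero, ← Nat.pos_iff_ne_zero, card_pos]
    exact ⟨x, by simp [hx]⟩
  · rw [card_image_of_injOn (rk_injOn U), Nat.card_Icc]
    omega

/-- the image of a family -/
def tr (U : Finset ℕ) (N : Finset (Finset ℕ)) : Finset (Finset ℕ) :=
  N.image (fun e => e.image (rk U))

lemma image_inj {U e f : Finset ℕ} (he : e ⊆ U) (hf : f ⊆ U)
    (h : e.image (rk U) = f.image (rk U)) : e = f := by
  have key : ∀ e f : Finset ℕ, e ⊆ U → f ⊆ U → e.image (rk U) = f.image (rk U) → e ⊆ f := by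
    intro e f he hf h x hx
    have h1 : rk U x ∈ f.image (rk U) := by rw [← h]; exact mem_image_of_mem _ hx
    obtain ⟨y, hy, hxy⟩ := mem_image.1 h1
    have := rk_injOn U (mem_coe.2 (hf hy)) (mem_coe.2 (he hx)) hxy
    rw [← this]
    exact hy
  exact Subset.antisymm (key e f he hf h) (key f e hf he h.symm)

lemma tr_matching {r : ℕ} {U : Finset ℕ} {N : Finset (Finset ℕ)} (h : IsMatching r U N) :
    IsMatching r (Icc 1 U.card) (tr U N) := by
  refine ⟨?_, ?_, ?_⟩
  · intro e' he'
    obtain ⟨e, he, rfl⟩ := mem_image.1 he'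
    rw [card_image_of_injOn ((rk_injOn U).mono (coe_subset.2 (sub_of_matching h he)))]
    exact h.1 e he
  · intro e' he' f' hf' hne
    obtain ⟨e, he, rfl⟩ := mem_image.1 he'
    obtain ⟨f, hf, rfl⟩ := mem_image.1 hf'
    have hef : e ≠ f := by rintro rfl; exact hne rfl
    have hd := h.2.1 e he f hf hef
    rw [disjoint_left]
    intro z hz hz'
    obtain ⟨x, hx, rfl⟩ := mem_image.1 hz
    obtain ⟨y, hy, hxy⟩ := mem_image.1 hz'
    have := rk_injOn U (mem_coe.2 (sub_of_matching h hf hy))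
      (mem_coe.2 (sub_of_matching h he hx)) hxy
    rw [this] at hy
    exact disjoint_left.1 hd hx hy
  · rw [← rk_image]
    have : ∀ z, z ∈ (tr U N).biUnion id ↔ z ∈ U.image (rk U) := by
      intro z
      rw [mem_biUnion, mem_image]
      constructor
      · rintro ⟨e', he', hz⟩
        obtain ⟨e, he, rfl⟩ := mem_image.1 he'
        obtain ⟨x, hx, rfl⟩ := mem_image.1 hz
        exact ⟨x, sub_of_matching h he hx, rfl⟩
      · rintro ⟨x, hx, rfl⟩
        rw [← h.2.2, mem_biUnion] at hx
        obtain ⟨e, he, hxe⟩ := hx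
        exact ⟨e.image (rk U), mem_image_of_mem _ he, mem_image_of_mem _ hxe⟩
    ext z
    exact this z

lemma tr_clique (hm : S_mono) {r : ℕ} {U : Finset ℕ} {N : Finset (Finset ℕ)}
    {Ps : Set (List Letter)} (h : IsMatching r U N) (hc : IsClique Ps N) :
    IsClique Ps (tr U N) := by
  intro e' he' f' hf' hne
  obtain ⟨e, he, rfl⟩ := mem_image.1 he'
  obtain ⟨f, hf, rfl⟩ := mem_image.1 hf'
  have hef : e ≠ f := by rintro rfl; exact hne rfl
  have := (hm e f (rk U) (fun x _ y hy hxy => rk_lt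
    ((union_subset (sub_of_matching h he) (sub_of_matching h hf)) hy) hxy)).2
  show pattern (e.image (rk U)) (f.image (rk U)) ∈ Ps
  rw [this]
  exact hc e he f hf hef

lemma tr_inj {r : ℕ} {U : Finset ℕ} {N N' : Finset (Finset ℕ)} (h : IsMatching r U N)
    (h' : IsMatching r U N') (he : tr U N = tr U N') : N = N' := by
  have key : ∀ N N' : Finset (Finset ℕ), IsMatching r U N → IsMatching r U N' →
      tr U N = tr U N' → N ⊆ N' := by
    intro N N' h h' heq e he
    have h1 : e.image (rk U) ∈ tr U N' := by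
      rw [← heq]
      exact mem_image_of_mem _ he
    obtain ⟨f, hf, hfe⟩ := mem_image.1 h1
    rw [← image_inj (sub_of_matching h' hf) (sub_of_matching h he) hfe]
    exact hf
  exact Subset.antisymm (key N N' h h' he) (key N' N h' h he.symm)

theorem place (_ : S_el) (hm : S_mono) : S_place := by
  intro r k n Ps _
  have hfin : Finite {N : Finset (Finset ℕ) // IsMatching r (Icc 1 (r * k)) N ∧ IsClique Ps N} :=
    Finite.of_injective (β := {M // M ∈ MS r (Icc 1 (r * k))})
      (fun N => ⟨N.1, mem_MS.2 N.2.1⟩) (by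
        intro a b hab
        exact Subtype.ext (congrArg (fun z => z.1) hab))
  have e1 : n.choose (r * k) = Nat.card {U // U ∈ (Icc 1 n).powersetCard (r * k)} := by
    rw [Nat.card_eq_fintype_card, Fintype.card_coe, card_powersetCard, Nat.card_Icc]
    rfl
  rw [e1, ← Nat.card_prod]
  let F : {N : Finset (Finset ℕ) // N.card = k ∧ N.biUnion id ⊆ Icc 1 n ∧
      IsMatching r (N.biUnion id) N ∧ IsClique Ps N} →
      {U // U ∈ (Icc 1 n).powersetCard (r * k)} ×
      {N : Finset (Finset ℕ) // IsMatching r (Icc 1 (r * k)) N ∧ IsClique Ps N} := fun N =>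
    (⟨N.1.biUnion id, mem_powersetCard.2 ⟨N.2.2.1, by rw [matching_card N.2.2.2.1, N.2.1]⟩⟩,
     ⟨tr (N.1.biUnion id) N.1, by
        have h := tr_matching N.2.2.2.1
        rwa [matching_card N.2.2.2.1, N.2.1] at h,
        tr_clique hm N.2.2.2.1 N.2.2.2.2⟩)
  refine Nat.card_le_card_of_injective F ?_
  intro N N' h
  have h1 : N.1.biUnion id = N'.1.biUnion id := congrArg (fun z => z.1.1) h
  have h2 : tr (N.1.biUnion id) N.1 = tr (N'.1.biUnion id) N'.1 := congrArg (fun z => z.2.1) h
  rw [← h1] at h2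
  have h3 := N'.2.2.2.1
  rw [← h1] at h3
  exact Subtype.ext (tr_inj N.2.2.2.1 h3 h2)

end Pool.Agent.Q156.OM
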